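import Mathlib
import Pool.Agent.R37.TD

set_option autoImplicit false

/-!
The blow-up of the 5-cycle in which every vertex is replaced by an independent set of size `m` is
`P5`-free, has induced biclique number `m` and tree-independence number `2m`.
-/

namespace Pool.Agent.Results.MP_0bffa7_co.BlowupFiveCycle

open Pool.Agent.R37

/-- The induced biclique number: the largest `t` such that `K_{t,t}` is an induced subgraph. -/
noncomputable def ibn {V : Type} (G : SimpleGraph V) : ℕ :=
  sSup {t : ℕ | Nonempty (completeBipartiteGraph (Fin t) (Fin t) ↪g G)}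

/-- `G` has no induced path on five vertices. -/
def P5Free {V : Type} (G : SimpleGraph V) : Prop := IsEmpty (SimpleGraph.pathGraph 5 ↪g G)

/-- adjacency of the 5-cycle -/
def c5 (i j : Fin 5) : Bool := j == i + 1 || i == j + 1

/-- the blow-up of the 5-cycle -/
def blow (m : ℕ) : SimpleGraph (Fin 5 × Fin m) where
  Adj u v := c5 u.1 v.1 = true
  symm := ⟨by
    have h : ∀ i j : Fin 5, c5 i j = true → c5 j i = true := by decide
    intro u v huv
    exact h _ _ huv⟩
  loopless := ⟨by
    have h : ∀ i : Fin 5, ¬ (c5 i i = true) := by decide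
    intro u hu
    exact h _ hu⟩

theorem blow_adj {m : ℕ} {u v : Fin 5 × Fin m} : (blow m).Adj u v ↔ c5 u.1 v.1 = true := Iff.rfl

theorem p5free (m : ℕ) : P5Free (blow m) := by
  refine ⟨fun f => ?_⟩
  have key : ∀ a b c d e : Fin 5, c5 a b = true → c5 b c = true → c5 c d = true →
      c5 d e = true → ¬ (c5 a d = true) → ¬ (c5 b e = true) → ¬ (c5 a e = true) → False := by
    decide +kernel
  have h : ∀ i j : Fin 5, (SimpleGraph.pathGraph 5).Adj i j ↔ c5 (f i).1 (f j).1 = true := by
    intro i j
    rw [← blow_adj]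
    exact f.map_adj_iff.symm
  have hp : ∀ i j : Fin 5, (SimpleGraph.pathGraph 5).Adj i j ↔
      i.val + 1 = j.val ∨ j.val + 1 = i.val := fun i j => SimpleGraph.pathGraph_adj
  refine key (f 0).1 (f 1).1 (f 2).1 (f 3).1 (f 4).1 ?_ ?_ ?_ ?_ ?_ ?_ ?_
  · rw [← h, hp]; decide
  · rw [← h, hp]; decide
  · rw [← h, hp]; decide
  · rw [← h, hp]; decide
  · rw [← h, hp]; decide
  · rw [← h, hp]; decide
  · rw [← h, hp]; decide

theorem le_of_embedding {m t : ℕ}
    (f : completeBipartiteGraph (Fin t) (Fin t) ↪g blow m) : t ≤ m := by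
  by_contra hcon
  have key : ∀ i i' j j' : Fin 5, i ≠ i' → j ≠ j' → c5 i j = true → c5 i j' = true →
      c5 i' j = true → c5 i' j' = true → False := by decide +kernel
  -- each side meets two classes
  have side : ∀ g : Fin t → Fin 5 × Fin m, Function.Injective g →
      ∃ a b, (g a).1 ≠ (g b).1 := by
    intro g hg
    by_contra hc
    push Not at hc
    have hinj : Function.Injective (fun a => (g a).2) := by
      intro a b hab
      exact hg (Prod.ext (hc a b) hab)
    have := Fintype.card_le_of_injective _ hinj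
    rw [Fintype.card_fin, Fintype.card_fin] at this
    omega
  obtain ⟨a, b, hab⟩ := side (fun x => f (Sum.inl x)) (fun x y hxy => Sum.inl.inj (f.injective hxy))
  obtain ⟨c, d, hcd⟩ := side (fun x => f (Sum.inr x)) (fun x y hxy => Sum.inr.inj (f.injective hxy))
  have hadj : ∀ x y, c5 (f (Sum.inl x)).1 (f (Sum.inr y)).1 = true := by
    intro x y
    rw [← blow_adj, f.map_adj_iff]
    simp
  exact key _ _ _ _ hab hcd (hadj a c) (hadj a d) (hadj b c) (hadj b d)

theorem ibn_blow (m : ℕ) : ibn (blow m) = m := by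
  apply le_antisymm
  · apply csSup_le'
    rintro t ⟨f⟩
    exact le_of_embedding f
  · apply le_csSup
    · refine ⟨m, ?_⟩
      rintro t ⟨f⟩
      exact le_of_embedding f
    · refine ⟨⟨⟨Sum.elim (fun a => (0, a)) (fun a => (1, a)), ?_⟩, ?_⟩⟩
      · rintro (a | a) (b | b) h
        · simpa using h
        · simp at h
        · simp at h
        · simpa using h
      · have e00 : (c5 0 0 = true) ↔ False := by decide
        have e01 : (c5 0 1 = true) ↔ True := by decide
        have e10 : (c5 1 0 = true) ↔ True := by decide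
        have e11 : (c5 1 1 = true) ↔ False := by decide
        rintro (a | a) (b | b)
        · change c5 0 0 = true ↔ _
          rw [e00]; simp
        · change c5 0 1 = true ↔ _
          rw [e01]; simp
        · change c5 1 0 = true ↔ _
          rw [e10]; simp
        · change c5 1 1 = true ↔ _
          rw [e11]; simp

theorem card_indep {m : ℕ} {S : Finset (Fin 5 × Fin m)}
    (hS : (blow m).IsIndepSet (S : Set (Fin 5 × Fin m))) : S.card ≤ 2 * m := by
  classical
  have h1 : S ⊆ (S.image Prod.fst) ×ˢ (Finset.univ : Finset (Fin m)) := by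
    intro x hx
    rw [Finset.mem_product]
    exact ⟨Finset.mem_image_of_mem _ hx, Finset.mem_univ _⟩
  have h2 : (S.image Prod.fst).card ≤ 2 := by
    by_contra hcon
    obtain ⟨a, ha, b, hb, c, hc, hab, hac, hbc⟩ := Finset.two_lt_card.mp (not_le.mp hcon)
    have key : ∀ a b c : Fin 5, a ≠ b → a ≠ c → b ≠ c →
        c5 a b = true ∨ c5 a c = true ∨ c5 b c = true := by decide +kernel
    rw [Finset.mem_image] at ha hb hc
    obtain ⟨x, hx, rfl⟩ := ha
    obtain ⟨y, hy, rfl⟩ := hb
    obtain ⟨z, hz, rfl⟩ := hc
    rcases key _ _ _ hab hac hbc with h | h | h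
    · exact hS hx hy (fun e => hab (congrArg Prod.fst e)) h
    · exact hS hx hz (fun e => hac (congrArg Prod.fst e)) h
    · exact hS hy hz (fun e => hbc (congrArg Prod.fst e)) h
  refine (Finset.card_le_card h1).trans ?_
  rw [Finset.card_product, Finset.card_univ, Fintype.card_fin]
  exact Nat.mul_le_mul_right m h2

theorem treeAlpha_blow {m : ℕ} (hm : 1 ≤ m) : treeAlpha (blow m) = 2 * m := by
  classical
  apply le_antisymm
  · exact treeAlpha_le (isTreeDecomposition_single _) (fun t S _ hS => card_indep hS)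
  · obtain ⟨n, T, X, h, hk⟩ := exists_treeAlpha (blow m)
    have : Nonempty (Fin 5 × Fin m) := ⟨(0, ⟨0, hm⟩)⟩
    obtain ⟨⟨i, a⟩, t, -, ht⟩ := exists_simplicial_bag h
    let S : Finset (Fin 5 × Fin m) := ({i + 1, i - 1} : Finset (Fin 5)) ×ˢ Finset.univ
    have hcard : S.card = 2 * m := by
      rw [Finset.card_product, Finset.card_univ, Fintype.card_fin]
      have : ∀ i : Fin 5, ({i + 1, i - 1} : Finset (Fin 5)).card = 2 := by decide
      rw [this]
    have hadj : ∀ i j : Fin 5, j ∈ ({i + 1, i - 1} : Finset (Fin 5)) → c5 i j = true := by decide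
    have hnadj : ∀ i j k : Fin 5, j ∈ ({i + 1, i - 1} : Finset (Fin 5)) →
        k ∈ ({i + 1, i - 1} : Finset (Fin 5)) → ¬ (c5 j k = true) := by decide
    rw [← hcard]
    apply hk t S
    · intro x hx
      apply ht
      rw [Finset.mem_product] at hx
      exact hadj _ _ hx.1
    · intro x hx y hy _
      rw [Finset.mem_coe, Finset.mem_product] at hx hy
      exact hnadj i _ _ hx.1 hy.1

/-- For every constant `c` there is a finite `P5`-free graph `G` with
`tree-α(G) > ibn(G) + c`; moreover `tree-α(G) = 2 ibn(G)` for these graphs. -/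
theorem result : ∀ c : ℕ, ∃ (V : Type) (_ : Fintype V) (G : SimpleGraph V),
    P5Free G ∧ ibn G + c < treeAlpha G ∧ treeAlpha G = 2 * ibn G := by
  intro c
  refine ⟨Fin 5 × Fin (c + 1), inferInstance, blow (c + 1), p5free _, ?_, ?_⟩
  · rw [ibn_blow, treeAlpha_blow (by omega)]
    omega
  · rw [ibn_blow, treeAlpha_blow (by omega)]

end Pool.Agent.Results.MP_0bffa7_co.BlowupFiveCycle
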